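import Pool.Agent.SR3.T.Defs
import Pool.Agent.SR3.HDefs3
import Pool.Agent.SDA.RDefs2

/-!
# SR3 T CvA: the compact definitions, analytic half
-/

set_option autoImplicit false

open Topology Filter Metric MvPolynomial

noncomputable section

namespace Pool.Agent.SR3.T

open Pool.Agent.H36.BP (EN)
open Pool.Agent.H17 (PN VanishesAt HolomorphicInto)
open Pool.Agent.H17EF (coneE projVar)

variable {N M k s : ℕ} {P : Ideal (MvPolynomial (Fin (N + 1)) ℂ)} {H : MvPolynomial (Fin (N + 1)) ℂ}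

theorem cone_eq : Cone P = coneE P := rfl

theorem cu_eq : CU P H = oc P H := rfl

theorem var_eq : Var P = projVar P := rfl

theorem tan_iff {X : Set (V N)} {x v : V N} : Tan X x v ↔ Pool.Agent.H14.PP.Tan X x v := Iff.rfl

theorem mem_tan_iff {X : Set (V N)} {x v : V N} : v ∈ Pool.Agent.H17BP.Tan X x ↔ Tan X x v :=
  ⟨fun ⟨γ, h1, h2, h3, h4⟩ => ⟨γ, ⟨h1, h2⟩, h3, h4⟩, fun ⟨γ, ⟨h1, h2⟩, h3, h4⟩ => ⟨γ, h1, h2, h3, h4⟩⟩

/-- the symmetric differential -/
def toS {X : Set (V N)} {m : ℕ} (θ : SymDiff X m) : Pool.Agent.AD.SymDiff X m := ⟨θ.toFun, θ.add_smul, θ.smul, θ.scale, θ.analytic⟩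

theorem sum_sq {n : ℕ} (x : EuclideanSpace ℂ (Fin n)) : ∑ i, ‖x.ofLp i‖ ^ 2 = ‖x‖ ^ 2 := (EuclideanSpace.norm_sq_eq x).symm

theorem sum_inner {n : ℕ} (x v : EuclideanSpace ℂ (Fin n)) : ∑ i, star (x.ofLp i) * v.ofLp i = inner ℂ x v := by
  rw [PiLp.inner_apply]
  refine Finset.sum_congr rfl fun i _ => ?_
  rw [RCLike.inner_apply, mul_comm]
  rfl

theorem dlog_eq {n : ℕ} (x v : EuclideanSpace ℂ (Fin n)) : dlog x.ofLp v.ofLp = inner ℂ x v / (‖x‖ : ℂ) ^ 2 := by
  unfold dlog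
  rw [sum_inner]
  congr 1
  rw [← Complex.ofReal_pow, ← sum_sq]

theorem fs_eq (x v : V N) : fs x.ofLp v.ofLp = Pool.Agent.H36.BP.fs x v := by
  unfold fs Pool.Agent.H36.BP.fs Pool.Agent.H36.BP.wd
  rw [sum_sq, sum_sq, sum_inner]

/-- the derivative of a polynomial along a curve -/
theorem hasDerivAt_poly (Q : MvPolynomial (Fin (N + 1)) ℂ) {c : ℂ → Fin (N + 1) → ℂ} {c' : Fin (N + 1) → ℂ} {t : ℂ}
    (hc : HasDerivAt c c' t) : HasDerivAt (fun s => eval (c s) Q) (∑ i, c' i * eval (c t) (pderiv i Q)) t := by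
  have hci : ∀ i, HasDerivAt (fun s => c s i) (c' i) t := fun i => (hasDerivAt_pi.1 hc) i
  induction Q using MvPolynomial.induction_on with
  | C a =>
    have h1 : (fun s => eval (c s) (C a : MvPolynomial (Fin (N + 1)) ℂ)) = fun _ => a := by
      funext s
      simp
    have h2 : (∑ i, c' i * eval (c t) (pderiv i (C a : MvPolynomial (Fin (N + 1)) ℂ))) = 0 := by
      refine Finset.sum_eq_zero fun i _ => ?_
      simp
    rw [h1, h2]
    exact hasDerivAt_const t a
  | add p q hp hq =>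
    have h1 : (fun s => eval (c s) (p + q)) = fun s => eval (c s) p + eval (c s) q := by
      funext s
      simp
    have h2 : (∑ i, c' i * eval (c t) (pderiv i (p + q))) = (∑ i, c' i * eval (c t) (pderiv i p)) + ∑ i, c' i * eval (c t) (pderiv i q) := by
      rw [← Finset.sum_add_distrib]
      refine Finset.sum_congr rfl fun i _ => ?_
      rw [map_add, map_add, mul_add]
    rw [h1, h2]
    exact hp.fun_add hq
  | mul_X p j hp =>
    have h1 : (fun s => eval (c s) (p * X j)) = fun s => eval (c s) p * c s j := by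
      funext s
      simp
    have h2 : (∑ i, c' i * eval (c t) (pderiv i (p * X j))) = (∑ i, c' i * eval (c t) (pderiv i p)) * c t j + eval (c t) p * c' j := by
      have h3 : ∀ i, c' i * eval (c t) (pderiv i (p * X j)) =
          c' i * eval (c t) (pderiv i p) * c t j + (if i = j then eval (c t) p * c' i else 0) := by
        intro i
        rw [Derivation.leibniz, pderiv_X, map_add, smul_eq_mul, smul_eq_mul, map_mul, map_mul, eval_X]
        by_cases hij : j = i
        · subst hij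
          simp
          ring
        · rw [Pi.single_eq_of_ne hij, if_neg fun h => hij h.symm]
          simp
          ring
      rw [Finset.sum_congr rfl fun i _ => h3 i, Finset.sum_add_distrib, Finset.sum_ite_eq', if_pos (Finset.mem_univ j),
        Finset.sum_mul]
    rw [h1, h2]
    exact hp.fun_mul (hci j)

theorem differentiable_vec (E : Fin (M + 1) → MvPolynomial (Fin (N + 1)) ℂ) : Differentiable ℂ (vec E) := by
  have h1 : Differentiable ℂ fun x : EN N => fun l => eval x.ofLp (E l) := by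
    rw [differentiable_pi]
    intro l
    have h2 : Differentiable ℂ fun x : Fin (N + 1) → ℂ => eval x (E l) := fun x =>
      ((AnalyticOnNhd.eval_mvPolynomial (𝕜 := ℂ) (E l)) x (Set.mem_univ _)).differentiableAt
    exact h2.comp (PiLp.continuousLinearEquiv 2 ℂ (fun _ : Fin (N + 1) => ℂ)).differentiable
  exact (PiLp.continuousLinearEquiv 2 ℂ (fun _ : Fin (M + 1) => ℂ)).symm.differentiable.comp h1

theorem fderiv_vec (E : Fin (M + 1) → MvPolynomial (Fin (N + 1)) ℂ) (x v : EN N) (l : Fin (M + 1)) :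
    (fderiv ℂ (vec E) x v).ofLp l = ∑ i, v.ofLp i * eval x.ofLp (pderiv i (E l)) := by
  have h0 : HasDerivAt (fun t : ℂ => x + t • v) v 0 := by
    have h := ((hasDerivAt_id (0 : ℂ)).smul_const v).const_add x
    simpa using h
  have h1 : HasDerivAt (fun t : ℂ => vec E (x + t • v)) (fderiv ℂ (vec E) x v) 0 := by
    have h2 : HasFDerivAt (vec E) (fderiv ℂ (vec E) x) (x + (0 : ℂ) • v) := by
      rw [zero_smul, add_zero]
      exact (differentiable_vec E x).hasFDerivAt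
    exact h2.comp_hasDerivAt 0 h0
  have h2 : HasDerivAt (fun t : ℂ => eval (x + t • v).ofLp (E l)) ((fderiv ℂ (vec E) x v).ofLp l) 0 :=
    (EuclideanSpace.proj l : EN M →L[ℂ] ℂ).hasFDerivAt.comp_hasDerivAt 0 h1
  have h3 : HasDerivAt (fun t : ℂ => (x + t • v).ofLp) v.ofLp 0 :=
    ((PiLp.continuousLinearEquiv 2 ℂ fun _ : Fin (N + 1) => ℂ) : EN N →L[ℂ] (Fin (N + 1) → ℂ)).hasFDerivAt.comp_hasDerivAt 0 h0
  have h4 := hasDerivAt_poly (E l) h3
  rw [zero_smul, add_zero] at h4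
  exact h2.unique h4

theorem ell_eq (E : Fin (M + 1) → MvPolynomial (Fin (N + 1)) ℂ) (c : ℕ) (x v : EN N) : ell E c x.ofLp v.ofLp = ellE E c x v := by
  have h1 : (fun l => ∑ i, v.ofLp i * eval x.ofLp (pderiv i (E l))) = (fderiv ℂ (vec E) x v).ofLp := funext fun l => (fderiv_vec E x v l).symm
  have h2 : dlog (fun l => eval x.ofLp (E l)) (fun l => ∑ i, v.ofLp i * eval x.ofLp (pderiv i (E l))) =
      inner ℂ (vec E x) (fderiv ℂ (vec E) x v) / (‖vec E x‖ : ℂ) ^ 2 := by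
    rw [h1]
    exact dlog_eq (vec E x) (fderiv ℂ (vec E) x v)
  unfold ell ellE
  rw [h2, dlog_eq]

theorem isChart_of {X : Set (V N)} {σ : ℂ × ℂ → V N} {τ : V N → ℂ × ℂ} (h : IsChart X σ τ) : Pool.Agent.H17BP.IsChart X σ τ :=
  ⟨h.σ_an, h.σ_mem, h.ne, h.τ_an, h.left, h.right, h.inv⟩

theorem co_eq (o : Option Bool) (y : ℂ × ℂ) : co o y = Pool.Agent.SR3.co o y := by
  rcases o with _ | _ | _ <;> rfl

theorem snc_of {E : Fin k → Fin (M + 1) → MvPolynomial (Fin (N + 1)) ℂ} {b : Fin k → ℕ} (h : Snc P H E b) : Pool.Agent.SR3.Snc P H E b := by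
  refine ⟨h.pos, fun x hx => ?_⟩
  obtain ⟨σ, τ, s, e, u, h1, h2, h3, h4, h5, h6, h7⟩ := h.chart x hx
  refine ⟨σ, τ, s, fun i y => WithLp.toLp 2 fun l => e i l y, u, isChart_of h1, h2, h3, fun i => ⟨?_, ?_, ?_⟩, h5, h6, ?_⟩
  · have h8 : AnalyticAt ℂ (fun y => fun l => e i l y) 0 := AnalyticAt.pi fun l => ((h4 i).2 l).1
    exact (((PiLp.continuousLinearEquiv 2 ℂ fun _ : Fin (M + 1) => ℂ).symm : (Fin (M + 1) → ℂ) →L[ℂ] EN M).analyticAt _).comp h8
  · intro h8
    obtain ⟨l, hl⟩ := (h4 i).1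
    exact hl (congrFun (congrArg WithLp.ofLp h8) l)
  · have h8 : ∀ᶠ y in 𝓝 (0 : ℂ × ℂ), ∀ l, eval (σ y).ofLp (E i l) = co (s i) y * e i l y := Filter.eventually_all.2 fun l => ((h4 i).2 l).2
    filter_upwards [h8] with y hy
    apply WithLp.ofLp_injective 2
    funext l
    rw [← co_eq]
    exact hy l
  · filter_upwards [h7] with y hy
    rw [hy]
    exact congrArg (fun t => u y * t) (Finset.prod_congr rfl fun i _ => by rw [co_eq])

theorem hasLogPoles_of {E : Fin k → Fin (M + 1) → MvPolynomial (Fin (N + 1)) ℂ} {c : Fin k → ℕ} {m : ℕ} {θ : SymDiff (CU P H) m}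
    (h : HasLogPoles E c θ) : Pool.Agent.SR3.HasLogPoles E c (toS θ) := by
  obtain ⟨C, hC, h1⟩ := h
  refine ⟨C, hC, fun x hx v hv => ?_⟩
  have h2 := h1 x hx v hv
  rw [fs_eq, Finset.sum_congr rfl fun i _ => by rw [ell_eq]] at h2
  exact h2

theorem isAlg_of {m : ℕ} {θ : SymDiff (CU P H) m} (h : IsAlg θ) : Pool.Agent.SR3.IsAlg (toS θ) := h

theorem logForms_of {m j r : ℕ} {Ω : Fin r → V N → V N → V N → ℂ} {Q : Fin r → MvPolynomial (Fin (N + 1)) ℂ} (h : LogAmple P H m j Ω Q) :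
    LogForms P H m j Ω Q where
  one_m := h.one_m
  one_j := h.one_j
  form a := ⟨fun x hx v hv w hw => h.add_smul a x hx v w (mem_tan_iff.1 hv) (mem_tan_iff.1 hw),
    fun x hx v hv w hw => h.det a x hx v w (mem_tan_iff.1 hv) (mem_tan_iff.1 hw),
    fun x hx v hv w hw => h.scale a x hx v w (mem_tan_iff.1 hv) (mem_tan_iff.1 hw), h.analytic a⟩
  pole a := h.pole a
  hom := h.hom
  noZeros a := fun x hx hxQ v hv w hw => h.noZeros a x hx hxQ v w (mem_tan_iff.1 hv) (mem_tan_iff.1 hw)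

theorem lineCover_of {m j r : ℕ} {Ω : Fin r → V N → V N → V N → ℂ} {Q : Fin r → MvPolynomial (Fin (N + 1)) ℂ} (h : LogAmple P H m j Ω Q) :
    LineCover P H Q := by
  intro x hx hx0
  obtain ⟨F, h1, h2, z, a, h3⟩ := h.cover x hx hx0
  exact ⟨F, ⟨fun z => (h1 z).1, fun z => (h1 z).2, h2⟩, z, a, WithLp.ofLp_injective 2 (funext h3)⟩

theorem noBdyCurve_of {E : Fin k → Fin (M + 1) → MvPolynomial (Fin (N + 1)) ℂ} (h : NoBdyCurve P E) : Pool.Agent.SR3.NoBdyCurve P E := h

end Pool.Agent.SR3.T
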